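import Pool.Agent.Helper22.TB.Goals

/-!
# Project TB (MP_74f661_nt), packet MEAN: the mean value of `GX`
-/

set_option autoImplicit false

open Finset Filter Topology
open scoped Classical

namespace Pool.Agent.Helper31.TB

open Pool.Agent.Helper22.TB

/-- `∑_{m ≤ x} τ(m)/m` -/
noncomputable def Tm (x : ℝ) : ℝ := ∑ m ∈ Icc 1 ⌊x⌋₊, (m.divisors.card : ℝ) / m

theorem Tm_nonneg (x : ℝ) : 0 ≤ Tm x :=
  sum_nonneg fun m _ => by positivity

theorem Tm_zero {x : ℝ} (hx : x < 1) : Tm x = 0 := by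
  rw [Tm, Nat.floor_eq_zero.mpr hx]
  rfl

theorem GX_eq (X : ℝ) : GX X = ∑ q ∈ Icc 1 ⌊X⌋₊, bq q / q := by
  rw [GX, Finset.sum_filter]
  refine Finset.sum_congr rfl fun q hq => ?_
  have hq0 : (q : ℝ) ≠ 0 := by
    have := (mem_Icc.mp hq).1
    positivity
  by_cases h : SF6 q
  · rw [if_pos h, bq, if_pos h, mul_comm, mul_div_assoc, div_self hq0, mul_one]
  · rw [if_neg h, bq, if_neg h, zero_div]

/-- rearrangement of a sum over divisors -/
theorem sum_div_rearr (N : ℕ) (F : ℕ → ℕ → ℝ) :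
    ∑ q ∈ Icc 1 N, ∑ d ∈ q.divisors, F d (q / d) = ∑ d ∈ Icc 1 N, ∑ m ∈ Icc 1 (N / d), F d m := by
  rw [Finset.sum_sigma', Finset.sum_sigma']
  refine Finset.sum_bij' (fun x _ => ⟨x.2, x.1 / x.2⟩) (fun x _ => ⟨x.1 * x.2, x.1⟩) ?_ ?_ ?_ ?_ ?_
  · rintro ⟨q, d⟩ h
    simp only [mem_sigma, mem_Icc, Nat.mem_divisors] at h ⊢
    obtain ⟨⟨h1, h2⟩, h3, h4⟩ := h
    have hd : 0 < d := Nat.pos_of_dvd_of_pos h3 h1
    have hle : d ≤ q := Nat.le_of_dvd h1 h3
    exact ⟨⟨hd, hle.trans h2⟩, Nat.div_pos hle hd, Nat.div_le_div_right h2⟩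
  · rintro ⟨d, m⟩ h
    simp only [mem_sigma, mem_Icc, Nat.mem_divisors] at h ⊢
    obtain ⟨⟨h1, h2⟩, h3, h4⟩ := h
    have h5 : d * m ≤ N := by
      rw [mul_comm]
      exact (Nat.le_div_iff_mul_le h1).mp h4
    have h6 : 0 < d * m := Nat.mul_pos h1 h3
    exact ⟨⟨h6, h5⟩, Dvd.intro _ rfl, h6.ne'⟩
  · rintro ⟨q, d⟩ h
    simp only [mem_sigma, mem_Icc, Nat.mem_divisors] at h
    obtain ⟨⟨h1, h2⟩, h3, h4⟩ := h
    simp only [Nat.mul_div_cancel' h3]
  · rintro ⟨d, m⟩ h
    simp only [mem_sigma, mem_Icc] at h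
    obtain ⟨⟨h1, h2⟩, h3, h4⟩ := h
    simp only [Nat.mul_div_cancel_left m h1]
  · rintro ⟨q, d⟩ h
    rfl

theorem GX_tsum {h : ℕ → ℝ}
    (hb : ∀ q : ℕ, 1 ≤ q → bq q = ∑ d ∈ q.divisors, h d * ((q / d).divisors.card : ℝ)) (X : ℝ) :
    GX X = ∑' n : ℕ, h n / n * Tm (X / n) := by
  rw [GX_eq]
  have e1 : ∑ q ∈ Icc 1 ⌊X⌋₊, bq q / q = ∑ q ∈ Icc 1 ⌊X⌋₊, ∑ d ∈ q.divisors,
      (fun d m : ℕ => h d / d * ((m.divisors.card : ℝ) / m)) d (q / d) := by
    refine Finset.sum_congr rfl fun q hq => ?_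
    have hq1 := (mem_Icc.mp hq).1
    rw [hb q hq1, Finset.sum_div]
    refine Finset.sum_congr rfl fun d hd => ?_
    have hdq : d ∣ q := Nat.dvd_of_mem_divisors hd
    have hd0 : 0 < d := Nat.pos_of_dvd_of_pos hdq hq1
    obtain ⟨m, rfl⟩ := hdq
    have hm0 : 0 < m := Nat.pos_of_mul_pos_left hq1
    simp only [Nat.mul_div_cancel_left m hd0]
    have h1 : (d : ℝ) ≠ 0 := by positivity
    have h2 : (m : ℝ) ≠ 0 := by positivity
    push_cast
    field_simp
  refine e1.trans ((sum_div_rearr ⌊X⌋₊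
    (fun d m : ℕ => h d / d * ((m.divisors.card : ℝ) / m))).trans ?_)
  rw [tsum_eq_sum (s := Icc 1 ⌊X⌋₊)]
  · refine Finset.sum_congr rfl fun d hd => ?_
    rw [Tm, Nat.floor_div_natCast, Finset.mul_sum]
  · intro n hn
    rw [mem_Icc, not_and_or, not_le, not_le] at hn
    have : Tm (X / n) = 0 := by
      apply Tm_zero
      rcases hn with hn | hn
      · have : n = 0 := by omega
        rw [this]
        simp
      · have h1 : X < n := (Nat.floor_lt' (by omega)).mp hn
        have h2 : (0 : ℝ) < n := by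
          have : 0 < n := by omega
          exact_mod_cast this
        rw [div_lt_one h2]
        exact h1
    rw [this, mul_zero]

/-- **MEAN** -/
theorem gMEAN : G_MEAN := by
  rintro ⟨hT1, C, hC, hT2⟩ ⟨h, hb, hs, hprod⟩
  refine ⟨∑' n : ℕ, h n / n, ?_, hprod⟩
  have hT1' : Tendsto (fun x : ℝ => Tm x / Real.log x ^ 2) atTop (𝓝 (1 / 2)) := hT1
  have hT2' : ∀ x : ℝ, 1 ≤ x → Tm x ≤ C * (1 + Real.log x) ^ 2 := hT2
  have e1 : (fun X : ℝ => GX X / Real.log X ^ 2) =
      fun X : ℝ => ∑' n : ℕ, h n / n * (Tm (X / n) / Real.log X ^ 2) := by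
    funext X
    rw [GX_tsum hb, ← tsum_div_const]
    congr 1
    funext n
    rw [mul_div_assoc]
  have e2 : (∑' n : ℕ, h n / n) / 2 = ∑' n : ℕ, h n / n * (1 / 2) := by
    rw [tsum_mul_right, mul_one_div]
  rw [e1, e2]
  apply tendsto_tsum_of_dominated_convergence (bound := fun n : ℕ => |h n| / n * (4 * C))
  · exact hs.mul_right _
  · intro n
    rcases Nat.eq_zero_or_pos n with rfl | hn
    · simp
    · apply Tendsto.const_mul
      have hn' : (0 : ℝ) < n := by exact_mod_cast hn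
      have t1 : Tendsto (fun X : ℝ => X / n) atTop atTop := tendsto_id.atTop_div_const hn'
      have t2 : Tendsto (fun X : ℝ => Tm (X / n) / Real.log (X / n) ^ 2) atTop (𝓝 (1 / 2)) :=
        hT1'.comp t1
      have t3 : Tendsto (fun X : ℝ => (1 - Real.log n / Real.log X) ^ 2) atTop (𝓝 1) := by
        have : Tendsto (fun X : ℝ => Real.log n / Real.log X) atTop (𝓝 0) :=
          Tendsto.const_div_atTop Real.tendsto_log_atTop _
        have h2 := (tendsto_const_nhds (x := (1 : ℝ))).sub this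
        have h3 := h2.pow 2
        simpa using h3
      have t4 := t2.mul t3
      rw [mul_one] at t4
      refine t4.congr' ?_
      have h5 : ∀ᶠ X : ℝ in atTop, 1 < Real.log X := Real.tendsto_log_atTop.eventually_gt_atTop 1
      have h6 : ∀ᶠ X : ℝ in atTop, 1 < Real.log (X / n) :=
        (Real.tendsto_log_atTop.comp t1).eventually_gt_atTop 1
      filter_upwards [h5, h6, eventually_gt_atTop 0] with X hX1 hX2 hX3
      have e3 : 1 - Real.log n / Real.log X = Real.log (X / n) / Real.log X := by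
        rw [Real.log_div hX3.ne' hn'.ne', sub_div, div_self (by linarith)]
      rw [e3, div_pow, div_mul_div_comm, mul_comm (Real.log (X / n) ^ 2), mul_div_mul_right]
      have : Real.log (X / n) ≠ 0 := by linarith
      positivity
  · have h5 : ∀ᶠ X : ℝ in atTop, 1 ≤ Real.log X := Real.tendsto_log_atTop.eventually_ge_atTop 1
    filter_upwards [h5, eventually_ge_atTop 1] with X hX1 hX3 n
    have hT : Tm (X / n) / Real.log X ^ 2 ≤ 4 * C := by
      rw [div_le_iff₀ (by positivity)]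
      rcases lt_or_ge (X / n) 1 with hlt | hge
      · rw [Tm_zero hlt]
        positivity
      · have h1 := hT2' (X / n) hge
        have hn : 0 < n := by
          rcases Nat.eq_zero_or_pos n with h0 | h0
          · rw [h0] at hge
            simp at hge
            norm_num at hge
          · exact h0
        have hn1 : (1 : ℝ) ≤ n := by exact_mod_cast hn
        have h2 : Real.log (X / n) ≤ Real.log X :=
          Real.log_le_log (by positivity) (div_le_self (by linarith) hn1)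
        have h3 : 0 ≤ Real.log (X / n) := Real.log_nonneg hge
        have h4 : (1 + Real.log (X / n)) ^ 2 ≤ (2 * Real.log X) ^ 2 := by
          apply pow_le_pow_left₀ (by linarith)
          linarith
        have h6 : C * (1 + Real.log (X / n)) ^ 2 ≤ C * (2 * Real.log X) ^ 2 :=
          mul_le_mul_of_nonneg_left h4 hC.le
        nlinarith
    have hT0 : 0 ≤ Tm (X / n) / Real.log X ^ 2 := div_nonneg (Tm_nonneg _) (by positivity)
    rw [Real.norm_eq_abs, abs_mul, abs_div, Nat.abs_cast, abs_of_nonneg hT0]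
    exact mul_le_mul_of_nonneg_left hT (by positivity)

end Pool.Agent.Helper31.TB
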