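import Pool.Agent.Helper33.TB.Goals

/-!
# Project TB (MP_74f661_nt), packet EX: the periodic solutions of the two recursions
-/

set_option autoImplicit false

open Finset

namespace Pool.Agent.Helper31.TB

open Pool.Agent.Helper33.TB

theorem per_int {Q : ℕ} {f : ℤ → ℝ} (h : Per Q f) (t k : ℤ) : f (t + k * Q) = f t := by
  have hp : Function.Periodic f (Q : ℤ) := h
  have h2 := hp.int_mul k
  exact h2 t

theorem per_emod {Q : ℕ} {f : ℤ → ℝ} (h : Per Q f) (t : ℤ) : f (t % Q) = f t := by
  have h1 := per_int h (t % Q) (t / Q)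
  rw [← h1]
  congr 1
  rw [mul_comm]
  exact (Int.emod_add_mul_ediv t Q)

/-- the solution of the recursion on the natural numbers -/
noncomputable def it (a c : ℤ → ℝ) (x0 : ℝ) : ℕ → ℝ
  | 0 => x0
  | n + 1 => a (n : ℤ) + c (n : ℤ) * it a c x0 n

theorem it_eq (a c : ℤ → ℝ) (x0 : ℝ) (n : ℕ) :
    it a c x0 n = it a c 0 n + (∏ i ∈ range n, c (i : ℤ)) * x0 := by
  induction n with
  | zero => simp [it]
  | succ n ih =>
    rw [it, ih, it, prod_range_succ]
    ring

/-- a contracting linear recursion with periodic coefficients has a periodic solution -/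
theorem exists_per {Q : ℕ} (hQ : 0 < Q) {a c : ℤ → ℝ} (ha : Per Q a) (hc : Per Q c)
    (h : |∏ t ∈ range Q, c (t : ℤ)| < 1) :
    ∃ x : ℤ → ℝ, Per Q x ∧ ∀ t, x (t + 1) = a t + c t * x t := by
  set C := ∏ t ∈ range Q, c (t : ℤ) with hC
  have hC1 : 1 - C ≠ 0 := by
    have := (abs_lt.mp h).2
    linarith
  set x0 := it a c 0 Q / (1 - C) with hx0
  have hfix : it a c x0 Q = x0 := by
    rw [it_eq, ← hC]
    have : x0 * (1 - C) = it a c 0 Q := by
      rw [hx0]
      exact div_mul_cancel₀ _ hC1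
    linarith
  have hQ' : (0 : ℤ) < Q := by exact_mod_cast hQ
  refine ⟨fun t => it a c x0 (t % Q).toNat, ?_, ?_⟩
  · intro t
    simp only [Int.add_emod_right]
  · intro t
    have h0 : 0 ≤ t % Q := Int.emod_nonneg _ hQ'.ne'
    have h1 : t % Q < Q := Int.emod_lt_of_pos _ hQ'
    obtain ⟨r, hr⟩ := Int.eq_ofNat_of_zero_le h0
    have hr' : ((t % Q).toNat) = r := by rw [hr]; rfl
    have hrQ : r < Q := by
      rw [hr] at h1
      exact_mod_cast h1
    change it a c x0 ((t + 1) % Q).toNat = a t + c t * it a c x0 (t % Q).toNat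
    rw [hr', ← per_emod ha t, ← per_emod hc t, hr]
    have e : (t + 1) % Q = ((r : ℤ) + 1) % Q := by
      rw [Int.add_emod, hr, Int.add_emod (r : ℤ) 1, Int.emod_eq_of_lt (a := (r : ℤ)) (by positivity) (by exact_mod_cast hrQ)]
    rw [e]
    rcases Nat.lt_or_ge (r + 1) Q with hlt | hge
    · have e2 : (((r : ℤ) + 1) % Q).toNat = r + 1 := by
        rw [Int.emod_eq_of_lt (by positivity) (by exact_mod_cast hlt)]
        rfl
      rw [e2]
      rfl
    · have e1 : r + 1 = Q := le_antisymm hrQ hge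
      have e2 : (((r : ℤ) + 1) % Q).toNat = 0 := by
        have : ((r : ℤ) + 1) = (Q : ℤ) := by exact_mod_cast e1
        rw [this, Int.emod_self]
        rfl
      rw [e2]
      change x0 = a r + c r * it a c x0 r
      have e3 : it a c x0 (r + 1) = a r + c r * it a c x0 r := rfl
      rw [← e3, e1, hfix]

/-- a periodic function attains its maximum -/
theorem exists_max {Q : ℕ} (hQ : 0 < Q) {f : ℤ → ℝ} (hf : Per Q f) : ∃ t0, ∀ t, f t ≤ f t0 := by
  have hQ' : (0 : ℤ) < Q := by exact_mod_cast hQ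
  obtain ⟨t0, _, h⟩ := exists_max_image (range Q) (fun t : ℕ => f (t : ℤ)) ⟨0, mem_range.mpr hQ⟩
  refine ⟨t0, fun t => ?_⟩
  have h0 : 0 ≤ t % Q := Int.emod_nonneg _ hQ'.ne'
  have h1 : t % Q < Q := Int.emod_lt_of_pos _ hQ'
  obtain ⟨r, hr⟩ := Int.eq_ofNat_of_zero_le h0
  have hrQ : r < Q := by
    rw [hr] at h1
    exact_mod_cast h1
  rw [← per_emod hf t, hr]
  exact h r (mem_range.mpr hrQ)

theorem per_abs {Q : ℕ} {f : ℤ → ℝ} (hf : Per Q f) : Per Q (fun t => |f t|) := fun t => by
  simp only [hf t]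

/-- **EX** -/
theorem ex : StmtEX := by
  intro Q X hX τ s hτ hτ1 hs hs1
  have hQ := hX.pos
  have hQ' : (0 : ℤ) < Q := by exact_mod_cast hQ
  have hX0 : ∀ t, 0 ≤ X t := fun t => by rcases hX.zo t with h | h <;> rw [h] <;> norm_num
  have hX1 : ∀ t, X t ≤ 1 := fun t => by rcases hX.zo t with h | h <;> rw [h] <;> norm_num
  constructor
  · -- `F`: reverse the time
    have hperX : Per Q (fun t => X (-t)) := by
      intro t
      change X (-(t + Q)) = X (-t)
      rw [← hX.per (-(t + Q))]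
      congr 1
      ring
    have hneg : ∃ t1 : ℕ, t1 < Q ∧ X (-(t1 : ℤ)) = 1 := by
      obtain ⟨t, ht⟩ := hX.ne
      have h0 : 0 ≤ (-t) % Q := Int.emod_nonneg _ hQ'.ne'
      have h1 : (-t) % Q < Q := Int.emod_lt_of_pos _ hQ'
      obtain ⟨r, hr⟩ := Int.eq_ofNat_of_zero_le h0
      refine ⟨r, ?_, ?_⟩
      · rw [hr] at h1
        exact_mod_cast h1
      · have h2 := per_emod hperX (-t)
        simp only [neg_neg] at h2
        rw [hr] at h2
        rw [← ht, ← h2]
    have hprod : |∏ t ∈ range Q, -(1 - τ * X (-(t : ℤ)))| < 1 := by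
      obtain ⟨t1, ht1, hx1⟩ := hneg
      rw [abs_prod, ← mul_prod_erase (range Q) _ (mem_range.mpr ht1)]
      have e1 : |(-(1 - τ * X (-(t1 : ℤ))))| = 1 - τ := by
        rw [hx1, mul_one, abs_neg, abs_of_nonneg (by linarith)]
      rw [e1]
      have e2 : ∏ x ∈ (range Q).erase t1, |(-(1 - τ * X (-(x : ℤ))))| ≤ 1 := by
        apply prod_le_one
        · intro i _
          exact abs_nonneg _
        · intro i _
          have h1 : τ * X (-(i : ℤ)) ≤ 1 := mul_le_one₀ hτ1 (hX0 _) (hX1 _)
          have h2 : 0 ≤ τ * X (-(i : ℤ)) := mul_nonneg hτ.le (hX0 _)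
          rw [abs_neg, abs_of_nonneg (by linarith)]
          linarith
      have e3 : 0 ≤ ∏ x ∈ (range Q).erase t1, |(-(1 - τ * X (-(x : ℤ))))| :=
        prod_nonneg fun i _ => abs_nonneg _
      calc (1 - τ) * ∏ x ∈ (range Q).erase t1, |(-(1 - τ * X (-(x : ℤ))))| ≤ (1 - τ) * 1 :=
            mul_le_mul_of_nonneg_left e2 (by linarith)
        _ < 1 := by linarith
    obtain ⟨x, hx, hrec⟩ := exists_per hQ (a := fun t => -X (-t)) (c := fun t => -(1 - τ * X (-t)))
      (fun t => by have := hperX t; simp only at this ⊢; rw [this])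
      (fun t => by have := hperX t; simp only at this ⊢; rw [this]) hprod
    have hF : Per Q (fun t => x (-t)) := by
      intro t
      change x (-(t + Q)) = x (-t)
      rw [← hx (-(t + Q))]
      congr 1
      ring
    have hR : RecF X τ (fun t => x (-t)) := by
      intro t
      have h1 := hrec (-t - 1)
      rw [show -t - 1 + 1 = -t by ring, show -(-t - 1) = t + 1 by ring] at h1
      change x (-t) = -X (t + 1) - (1 - τ * X (t + 1)) * x (-(t + 1))
      rw [h1, show -(t + 1) = -t - 1 by ring]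
      ring
    refine ⟨fun t => x (-t), hF, hR, ?_⟩
    set F : ℤ → ℝ := fun t => x (-t) with hFdef
    obtain ⟨t0, ht0⟩ := exists_max hQ (per_abs hF)
    suffices hM : |F t0| ≤ 1 / τ from fun t => (ht0 t).trans hM
    by_contra hcon
    rw [not_le, div_lt_iff₀ hτ] at hcon
    have hstep : ∀ k : ℕ, |F (t0 + k)| = |F t0| → X (t0 + k + 1) = 0 ∧ |F (t0 + k + 1)| = |F t0| := by
      intro k hk
      have h1 := hR (t0 + k)
      have h3 := ht0 (t0 + k + 1)
      rcases hX.zo (t0 + k + 1) with h0 | h0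
      · refine ⟨h0, ?_⟩
        rw [h0] at h1
        have h2 : F (t0 + k) = - F (t0 + k + 1) := by
          rw [h1]
          ring
        rw [← hk, h2, abs_neg]
      · exfalso
        rw [h0] at h1
        have h2 : F (t0 + k) = -(1 + (1 - τ) * F (t0 + k + 1)) := by
          rw [h1]
          ring
        have h4 : |F t0| ≤ 1 + (1 - τ) * |F t0| := by
          rw [← hk, h2, abs_neg]
          calc |1 + (1 - τ) * F (t0 + k + 1)| ≤ |(1 : ℝ)| + |(1 - τ) * F (t0 + k + 1)| := abs_add_le _ _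
            _ = 1 + (1 - τ) * |F (t0 + k + 1)| := by
              rw [abs_one, abs_mul, abs_of_nonneg (show 0 ≤ 1 - τ by linarith)]
            _ ≤ 1 + (1 - τ) * |F (t0 + k)| := by
              rw [hk]
              have := mul_le_mul_of_nonneg_left h3 (show 0 ≤ 1 - τ by linarith)
              linarith
            _ = 1 + (1 - τ) * |-(1 + (1 - τ) * F (t0 + k + 1))| := by rw [← h2]
            _ = 1 + (1 - τ) * |1 + (1 - τ) * F (t0 + k + 1)| := by rw [abs_neg]
        linarith
    have hall : ∀ k : ℕ, |F (t0 + k)| = |F t0| := by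
      intro k
      induction k with
      | zero => simp
      | succ k ih =>
        have := (hstep k ih).2
        rw [← this]
        push_cast
        rw [add_assoc]
    obtain ⟨t1, ht1⟩ := hX.ne
    -- some `t1 + j Q` is larger than `t0`
    have h5 : ∃ k : ℕ, ∃ j : ℤ, t1 + j * Q = t0 + k + 1 := by
      refine ⟨((t1 - t0 - 1) % Q).toNat, -((t1 - t0 - 1) / Q), ?_⟩
      rw [Int.toNat_of_nonneg (Int.emod_nonneg _ hQ'.ne')]
      have := Int.emod_add_mul_ediv (t1 - t0 - 1) Q
      linarith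
    obtain ⟨k, j, hkj⟩ := h5
    have h6 := (hstep k (hall k)).1
    rw [← hkj, per_int hX.per, ht1] at h6
    exact one_ne_zero h6
  · -- `V`
    have hprod : |∏ _t ∈ range Q, -(1 - s)| < 1 := by
      rw [prod_const, card_range, abs_pow, abs_neg, abs_of_nonneg (by linarith)]
      exact pow_lt_one₀ (by linarith) (by linarith) hQ.ne'
    obtain ⟨V, hV, hrec⟩ := exists_per hQ (a := fun t => -X t) (c := fun _ => -(1 - s))
      (fun t => by simp only [hX.per t]) (fun t => rfl) hprod
    have hR : RecV X s V := by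
      intro t
      have h1 := hrec t
      rw [h1]
      ring
    refine ⟨V, hV, hR, ?_⟩
    obtain ⟨t0, ht0⟩ := exists_max hQ (per_abs hV)
    suffices hM : |V t0| ≤ 1 / s from fun t => (ht0 t).trans hM
    have h1 := hR (t0 - 1)
    rw [sub_add_cancel] at h1
    have h2 := ht0 (t0 - 1)
    have h3 : |V t0| ≤ 1 + (1 - s) * |V t0| := by
      have h4 : |V t0| ≤ |X (t0 - 1)| + |(1 - s) * V (t0 - 1)| := by
        rw [h1]
        calc |-X (t0 - 1) - (1 - s) * V (t0 - 1)| ≤ |-X (t0 - 1)| + |(1 - s) * V (t0 - 1)| :=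
              abs_sub _ _
          _ = |X (t0 - 1)| + |(1 - s) * V (t0 - 1)| := by rw [abs_neg]
      have h5 : |X (t0 - 1)| ≤ 1 := by
        rw [abs_of_nonneg (hX0 _)]
        exact hX1 _
      have h6 : |(1 - s) * V (t0 - 1)| ≤ (1 - s) * |V t0| := by
        rw [abs_mul, abs_of_nonneg (show 0 ≤ 1 - s by linarith)]
        exact mul_le_mul_of_nonneg_left h2 (by linarith)
      linarith
    rw [le_div_iff₀ hs]
    linarith

end Pool.Agent.Helper31.TB
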